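import Pool.Agent.Helper35.Cq.Defs

set_option autoImplicit false

open Finset Module
open scoped Classical

namespace Pool.Agent.Helper35.Cq

/-- Auxiliary: a linear endomorphism which kills one part and is injective on the other. -/
theorem indep_union_aux {F : Type*} [Field F] {V : Type*} [AddCommGroup V] [Module F V]
    (A T : Finset V) (ρ : V →ₗ[F] V) (hA : LinearIndepOn F id (A : Set V))
    (hρA : ∀ v ∈ A, ρ v = 0) (hT : LinearIndepOn F ρ (T : Set V)) :
    LinearIndepOn F id ((A ∪ T : Finset V) : Set V) ∧ Disjoint A T := by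
  have hdisj : Disjoint A T := by
    rw [Finset.disjoint_left]
    intro v hvA hvT
    have := hT.ne_zero (by exact_mod_cast hvT : v ∈ (T : Set V))
    exact this (hρA v hvA)
  refine ⟨?_, hdisj⟩
  rw [linearIndepOn_finset_iff]
  intro f hf
  rw [Finset.sum_union hdisj] at hf
  have h1 : ∑ i ∈ T, f i • ρ i = 0 := by
    have h2 := congrArg ρ hf
    rw [map_add, map_sum, map_sum, map_zero] at h2
    have h3 : ∑ x ∈ A, ρ (f x • id x) = 0 := by
      refine Finset.sum_eq_zero fun v hv => ?_
      rw [map_smul, id, hρA v hv, smul_zero]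
    rw [h3, zero_add] at h2
    simpa [map_smul] using h2
  have h4 := (linearIndepOn_finset_iff.1 hT) f h1
  have h5 : ∑ x ∈ A, f x • id x = 0 := by
    have h6 : ∑ x ∈ T, f x • id x = 0 :=
      Finset.sum_eq_zero fun v hv => by rw [h4 v hv, zero_smul]
    rwa [h6, add_zero] at hf
  have h7 := (linearIndepOn_finset_iff.1 hA) f h5
  intro i hi
  rcases Finset.mem_union.1 hi with h | h
  · exact h7 i h
  · exact h4 i h

/-- **Multiple exchange** for independent sets of vectors. -/
theorem exchange {F : Type*} [Field F] {V : Type*} [AddCommGroup V] [Module F V]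
    (B₁ B₂ : Finset V) (h₁ : LinearIndepOn F id (B₁ : Set V))
    (h₂ : LinearIndepOn F id (B₂ : Set V)) (S : Finset V) (hS : S ⊆ B₁) :
    ∃ T ⊆ B₂, LinearIndepOn F id ((S ∪ (B₂ \ T) : Finset V) : Set V) ∧ Disjoint S (B₂ \ T) ∧
      LinearIndepOn F id (((B₁ \ S) ∪ T : Finset V) : Set V) ∧ Disjoint (B₁ \ S) T := by
  -- the projection
  obtain ⟨π, hπ1, hπ0⟩ : ∃ π : V →ₗ[F] V, (∀ v ∈ S, π v = v) ∧ ∀ v ∈ B₁ \ S, π v = 0 := by
    let b := Basis.extend h₁
    let π : V →ₗ[F] V := b.constr F fun i => if (i : V) ∈ S then (i : V) else 0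
    have hb : ∀ v ∈ B₁, π v = if v ∈ S then v else 0 := by
      intro v hv
      have hv' : v ∈ h₁.extend (Set.subset_univ _) :=
        h₁.subset_extend _ (by exact_mod_cast hv)
      have h := b.constr_basis F (fun i => if (i : V) ∈ S then (i : V) else 0) ⟨v, hv'⟩
      rwa [Basis.extend_apply_self] at h
    refine ⟨π, fun v hv => ?_, fun v hv => ?_⟩
    · rw [hb v (hS hv), if_pos hv]
    · rw [hb v (Finset.mem_sdiff.1 hv).1, if_neg (Finset.mem_sdiff.1 hv).2]
  -- the coordinates
  obtain ⟨L, hL⟩ : ∃ L : V →ₗ[F] (B₂ → F), ∀ k : B₂, L (k : V) = Pi.single k 1 := by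
    let b := Basis.extend h₂
    let L : V →ₗ[F] (B₂ → F) := b.constr F fun i =>
      if hi : (i : V) ∈ B₂ then Pi.single (⟨i, hi⟩ : B₂) 1 else 0
    refine ⟨L, fun k => ?_⟩
    have hk' : (k : V) ∈ h₂.extend (Set.subset_univ _) :=
      h₂.subset_extend _ (by exact_mod_cast k.2)
    have h := b.constr_basis F (fun i =>
      if hi : (i : V) ∈ B₂ then (Pi.single (⟨i, hi⟩ : B₂) 1 : B₂ → F) else 0) ⟨k, hk'⟩
    rw [Basis.extend_apply_self] at h
    rw [h, dif_pos k.2]
  let Φ : MultilinearMap F (fun _ : B₂ => V) F :=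
    (Matrix.detRowAlternating (n := B₂) (R := F)).toMultilinearMap.compLinearMap (fun _ => L)
  have hΦ : ∀ x : B₂ → V, Φ x = Matrix.det (fun k => L (x k)) := fun x => rfl
  have hc : Φ (fun k => (k : V)) = 1 := by
    rw [hΦ]
    have : (fun k : B₂ => L ((k : B₂) : V)) = (1 : Matrix B₂ B₂ F) := by
      funext k
      rw [hL k]
      funext j
      rw [Matrix.one_apply, Pi.single_apply]
      by_cases h : j = k
      · rw [if_pos h, if_pos h.symm]
      · rw [if_neg h, if_neg fun h' => h h'.symm]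
    rw [this, Matrix.det_one]
  have hsum : (fun k : B₂ => (k : V)) =
      (fun k : B₂ => π (k : V)) + (fun k : B₂ => (k : V) - π (k : V)) := by
    funext k
    simp
  rw [hsum, MultilinearMap.map_add_univ] at hc
  obtain ⟨s, hs⟩ : ∃ s : Finset B₂, Φ (s.piecewise (fun k : B₂ => π (k : V))
      (fun k : B₂ => (k : V) - π (k : V))) ≠ 0 := by
    by_contra hcon
    simp only [not_exists, not_not] at hcon
    rw [Finset.sum_eq_zero fun s _ => hcon s] at hc
    exact zero_ne_one hc
  set x : B₂ → V := s.piecewise (fun k : B₂ => π (k : V)) (fun k : B₂ => (k : V) - π (k : V))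
    with hx
  have hind : LinearIndependent F x := by
    apply LinearIndependent.of_comp L
    rw [hΦ] at hs
    exact Matrix.linearIndependent_rows_of_det_ne_zero hs
  let T : Finset V := s.image Subtype.val
  have hTmem : ∀ (k : B₂), (k : V) ∈ T ↔ k ∈ s := by
    intro k
    simp only [T, Finset.mem_image]
    constructor
    · rintro ⟨j, hj, hjk⟩
      rwa [Subtype.ext hjk] at hj
    · exact fun h => ⟨k, h, rfl⟩
  have hTsub : T ⊆ B₂ := by
    intro v hv
    obtain ⟨j, -, rfl⟩ := Finset.mem_image.1 hv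
    exact j.2
  have hT1 : LinearIndepOn F π (T : Set V) := by
    have h := hind.comp (fun v : (T : Set V) => (⟨v, hTsub (by exact_mod_cast v.2)⟩ : B₂))
      (fun v w hvw => Subtype.ext (congrArg (fun z : B₂ => (z : V)) hvw))
    have he : (x ∘ fun v : (T : Set V) => (⟨v, hTsub (by exact_mod_cast v.2)⟩ : B₂)) =
        fun v : (T : Set V) => π v := by
      funext v
      have hv : (⟨v, hTsub (by exact_mod_cast v.2)⟩ : B₂) ∈ s := by
        rw [← hTmem]
        exact_mod_cast v.2
      simp only [Function.comp, hx]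
      rw [Finset.piecewise_eq_of_mem _ _ _ hv]
    rwa [he] at h
  have hT2 : LinearIndepOn F (LinearMap.id - π : V →ₗ[F] V) ((B₂ \ T : Finset V) : Set V) := by
    have hsub : ∀ v ∈ ((B₂ \ T : Finset V) : Set V), v ∈ B₂ := by
      intro v hv
      exact (Finset.mem_sdiff.1 (by exact_mod_cast hv)).1
    have h := hind.comp (fun v : ((B₂ \ T : Finset V) : Set V) => (⟨v, hsub v v.2⟩ : B₂))
      (fun v w hvw => Subtype.ext (congrArg (fun z : B₂ => (z : V)) hvw))
    have he : (x ∘ fun v : ((B₂ \ T : Finset V) : Set V) => (⟨v, hsub v v.2⟩ : B₂)) =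
        fun v : ((B₂ \ T : Finset V) : Set V) => (LinearMap.id - π : V →ₗ[F] V) v := by
      funext v
      have hv : (⟨v, hsub v v.2⟩ : B₂) ∉ s := by
        rw [← hTmem]
        have := v.2
        exact (Finset.mem_sdiff.1 (by exact_mod_cast this)).2
      simp only [Function.comp, hx]
      rw [Finset.piecewise_eq_of_notMem _ _ _ hv]
      rfl
    rwa [he] at h
  have hA1 : LinearIndepOn F id ((S : Finset V) : Set V) := h₁.mono (by exact_mod_cast hS)
  have hA2 : LinearIndepOn F id ((B₁ \ S : Finset V) : Set V) :=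
    h₁.mono (by exact_mod_cast Finset.sdiff_subset)
  have r1 := indep_union_aux S (B₂ \ T) (LinearMap.id - π) hA1
    (fun v hv => by rw [LinearMap.sub_apply, LinearMap.id_apply, hπ1 v hv, sub_self]) hT2
  have r2 := indep_union_aux (B₁ \ S) T π hA2 hπ0 hT1
  exact ⟨T, hTsub, r1.1, r1.2, r2.1, r2.2⟩

end Pool.Agent.Helper35.Cq
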